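import Pool.Agent.Helper54.S4.Stmts
import Pool.Agent.Helper52.SP.ES

/-!
Module ES4 of the `SPR_4` project (helper54): the sign function of the first lifting is
computable in polynomial time.
-/

namespace Pool.Agent.Helper54.S4

open Finset Pool.Agent.Helper54.SP Pool.Agent.Helper54.Poly

section es4

variable {α : Type} [TEnc α]

theorem es4_ne {f g : α → ℕ} (hf : PT f) (hg : PT g) : PT (fun x => decide (f x ≠ g x)) :=
  (PT.eqN hf hg).not.congr fun x => by by_cases h : f x = g x <;> simp [h]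

theorem es4_s3 (h1 : ST_EK4) (h2 : ST_ET4) {Γ : α → List Gt} {nw p q r : α → ℕ} (hΓ : PT Γ)
    (hn : PT nw) (hp : PT p) (hq : PT q) (hr : PT r) :
    PT (fun a => s3 (Γ a) (nw a) (p a) (q a) (r a)) := by
  have k : ∀ n : ℕ, PT (fun _ : α => n) := fun n => PT.const n
  obtain ⟨gp, ap, -, lp, -, -⟩ := h1 Γ nw p hΓ hn hp
  obtain ⟨gq, aq, -, lq, -, -⟩ := h1 Γ nw q hΓ hn hq
  obtain ⟨gr, ar, tr, lr, -, -⟩ := h1 Γ nw r hΓ hn hr
  unfold s3
  exact es_ite (PT.eqN hp (k 0)) (es4_ne hq (k 1))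
    (es_ite (PT.eqN hp (k 1)) (es_lt lr lq)
      (es_ite (es_lt gq gr) (es_lt lq lp)
        (es_ite (es_lt gp gq) (PT.const true) (h2 _ _ _ _ _ tr ap aq ar ar).1)))

end es4

theorem st_ES4 (h1 : ST_EK4) (h2 : ST_ET4) : ST_ES4 := by
  intro α _ Γ nw p q r s hΓ hn hp hq hr hs
  have k : ∀ n : ℕ, PT (fun _ : α => n) := fun n => PT.const n
  obtain ⟨gp, ap, -, lp, -, nn⟩ := h1 Γ nw p hΓ hn hp
  obtain ⟨gq, aq, -, lq, -, -⟩ := h1 Γ nw q hΓ hn hq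
  obtain ⟨gr, ar, -, lr, -, -⟩ := h1 Γ nw r hΓ hn hr
  obtain ⟨gs, as, ts, ls, -, -⟩ := h1 Γ nw s hΓ hn hs
  unfold c4
  exact es_ite (PT.eqN hs nn) (es4_s3 h1 h2 hΓ hn hp hq hr)
    (es_ite (PT.eqN hp (k 1)) (es4_s3 h1 h2 hΓ hn hq hr hs).not
      (es_ite (PT.eqN hq (k 1)) (es4_s3 h1 h2 hΓ hn hp hr hs)
        (es_ite (es_lt gr gs) (es4_s3 h1 h2 hΓ hn hp hq hr)
          (es_ite (es_lt gq gr) (es_lt lq lp)
            (es_ite (es_lt gp gq) (h2 _ _ _ _ _ ts aq ar as as).1.not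
              (h2 _ _ _ _ _ ts ap aq ar as).2)))))

end Pool.Agent.Helper54.S4
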