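import Pool.Agent.Helper54.S4.Stmts

/-!
Module F3 of the `SPR_4` project (helper54): the three facets with two apices.
-/

namespace Pool.Agent.Helper54.S4

open Finset Pool.Agent.Helper54.SP

theorem st_F3' (h1 : ST_AL4) (h2 : ST_EV5) (h3 : ST_LV4) (h4 : ST_RB4) : ST_F3' := by
  intro Γ nw hW
  obtain ⟨N, hN⟩ : ∃ N, N = N4 Γ := ⟨_, rfl⟩
  have hN3 : 3 ≤ N := by rw [hN]; unfold N4; omega
  have hrb := (h4 Γ nw hW).2.1
  have hl2 : lv Γ nw 2 = 0 := (h3 Γ nw hW).2.2.1
  rw [← hN] at hrb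
  have key : ∀ a b x, a < N → b < N → x < N →
      ch5 Γ nw [a, b, N, N + 1, x] = !ch4 Γ nw [a, b, N, x] := by
    intro a b x ha hb hx
    exact (h2 Γ nw a b N (N + 1) x).2.2.2.1 (hrb a (by omega)) (hrb b (by omega))
      (hrb N (by omega)) (hrb x (by omega))
  have hc : ∀ p q r, c4 Γ nw p q r N = s3 Γ nw p q r := by
    intro p q r
    unfold c4
    rw [if_pos hN]
  obtain ⟨-, -, a2, a3, a4⟩ := h1 (c4 Γ nw) 0
  have k01 : ∀ x, x < N + 2 → x ∉ [0, 1, N, N + 1] →
      ch5 Γ nw ([0, 1, N, N + 1] ++ [x]) = false := by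
    intro x hx hx'
    simp only [List.mem_cons, List.not_mem_nil, or_false, not_or] at hx'
    have e := key 0 1 x (by omega) (by omega) (by omega)
    have e2 : ch4 Γ nw [0, 1, N, x] = !c4 Γ nw 0 1 x N :=
      a4 0 1 N x (by omega) (by omega) (by omega) (by omega)
    rw [hc] at e2
    have e3 : s3 Γ nw 0 1 x = false := by
      unfold s3; simp
    show ch5 Γ nw [0, 1, N, N + 1, x] = false
    rw [e, e2, e3]; rfl
  have k02 : ∀ x, x < N + 2 → x ∉ [0, 2, N, N + 1] →
      ch5 Γ nw ([0, 2, N, N + 1] ++ [x]) = true := by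
    intro x hx hx'
    simp only [List.mem_cons, List.not_mem_nil, or_false, not_or] at hx'
    have e := key 0 2 x (by omega) (by omega) (by omega)
    show ch5 Γ nw [0, 2, N, N + 1, x] = true
    by_cases hx1 : x = 1
    · subst hx1
      have e2 : ch4 Γ nw [0, 2, N, 1] = c4 Γ nw 0 1 2 N :=
        a3 0 2 N 1 (by omega) (by omega) (by omega) (by omega)
      rw [hc] at e2
      have e3 : s3 Γ nw 0 1 2 = false := by
        unfold s3; simp
      rw [e, e2, e3]; rfl
    · have e2 : ch4 Γ nw [0, 2, N, x] = !c4 Γ nw 0 2 x N :=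
        a4 0 2 N x (by omega) (by omega) (by omega) (by omega)
      rw [hc] at e2
      have e3 : s3 Γ nw 0 2 x = true := by
        unfold s3; simp
      rw [e, e2, e3]; rfl
  have k12 : ∀ x, x < N + 2 → x ∉ [1, 2, N, N + 1] →
      ch5 Γ nw ([1, 2, N, N + 1] ++ [x]) = false := by
    intro x hx hx'
    simp only [List.mem_cons, List.not_mem_nil, or_false, not_or] at hx'
    have e := key 1 2 x (by omega) (by omega) (by omega)
    show ch5 Γ nw [1, 2, N, N + 1, x] = false
    by_cases hx1 : x = 0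
    · subst hx1
      have e2 : ch4 Γ nw [1, 2, N, 0] = !c4 Γ nw 0 1 2 N :=
        a2 1 2 N 0 (by omega) (by omega) (by omega)
      rw [hc] at e2
      have e3 : s3 Γ nw 0 1 2 = false := by
        unfold s3; simp
      rw [e, e2, e3]; rfl
    · have e2 : ch4 Γ nw [1, 2, N, x] = !c4 Γ nw 1 2 x N :=
        a4 1 2 N x (by omega) (by omega) (by omega) (by omega)
      rw [hc] at e2
      have e3 : s3 Γ nw 1 2 x = false := by
        unfold s3
        rw [if_neg (by omega), if_pos rfl, hl2]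
        simp
      rw [e, e2, e3]; rfl
  unfold Cst
  rw [← hN]
  exact ⟨fun x y hx hy hx' hy' => (k01 x hx hx').trans (k01 y hy hy').symm,
    fun x y hx hy hx' hy' => (k02 x hx hx').trans (k02 y hy hy').symm,
    fun x y hx hy hx' hy' => (k12 x hx hx').trans (k12 y hy hy').symm⟩

end Pool.Agent.Helper54.S4
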