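import Pool.Agent.Helper54.S4.Stmts

/-!
Module GI of the `SPR_4` project (helper54): four points of a half gate.
-/

namespace Pool.Agent.Helper54.S4

open Finset Pool.Agent.Helper54.SP

theorem st_GI (h1 : ST_PT4) (h2 : ST_AL4) : ST_GI := by
  intro Γ nw j a b c d hj hab hbc hcd hd
  obtain ⟨p1, -, p3, -⟩ := h1
  have e := (h2 (c4 Γ nw) 0).2.1 (pt j a) (pt j b) (pt j c) (pt j d) (by unfold pt; omega)
    (by unfold pt; omega) (by unfold pt; omega)
  obtain ⟨ga', la', _, ha⟩ := p1 j a (by omega)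
  obtain ⟨gb, lb, _, hb⟩ := p1 j b (by omega)
  obtain ⟨gc, lc, _, hc⟩ := p1 j c (by omega)
  obtain ⟨gd, ld, td, hd'⟩ := p1 j d (by omega)
  have hn : pt j d ≠ N4 Γ := by
    have := (p3 Γ (pt j d) hd').2 (by rw [gd]; simpa using hj)
    omega
  unfold ch4
  rw [e]
  unfold c4
  rw [if_neg hn, if_neg (by omega), if_neg (by omega), if_neg (by omega), if_neg (by omega),
    if_neg (by omega), td, la', lb, lc, ld]

end Pool.Agent.Helper54.S4
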